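import Pool.Agent.D0H69.JT.StmA
import Pool.Agent.D0H69.L3K.Hal
import Pool.Agent.Y433.XK.Gen

/-!
# Project JT, module HALS: mean values of the function which is `1` at the primes with character
value `1` and `1/24` at the others
-/

set_option autoImplicit false

open Finset

namespace Pool.Agent.D0H87.JT

open Pool.Agent.Y692.QS (Ei w nr nr_mul nr_one)
open Pool.Agent.Y715.T.RecG (Pq)
open Pool.Agent.Y699.E
open Pool.Agent.N883.FF.HalA (nr_of_prm xab_cases nine_eq nrm_nine prm_cop_nine ch_log)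
open Pool.Agent.Y433.XK (pN pN_pos eulerE M_le small_sum)
open Pool.Agent.D0H69.L3K (Tau)
open Pool.Agent.D0H69.L3K.HalA

open Classical in
/-- Splitting a squarefree number. -/
theorem split_sum (P : Ei → Prop) (g1 : Ei → ℝ) (h0 : ∀ π, 0 ≤ g1 π) (h1 : ∀ π, P π → g1 π = 1)
    (a : ℝ) (ha : 0 ≤ a) (T : ℕ) :
    ∑ n ∈ SB T, mf (fun π => if P π then 1 else a) n / nrm n ≤
      (∑ n ∈ SB T, mf g1 n / nrm n) * ∑ S ∈ (QB T).powerset, a ^ S.card * (1 / (pN S : ℝ)) := by
  rw [sum_mul_sum, ← sum_product']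
  have key : ∀ n ∈ SB T, (∀ ρ ∈ PD n, Pq ρ) ∧
      n = (∏ ρ ∈ (PD n).filter P, ρ) * ∏ ρ ∈ (PD n).filter (fun ρ => ¬ P ρ), ρ := by
    intro n hn
    rw [mem_SB] at hn
    refine ⟨fun ρ hρ => ((mem_PD hn.2.ne).1 hρ).1, ?_⟩
    rw [prod_filter_mul_prod_filter_not]
    exact hn.2.prod.symm
  have keyN : ∀ n ∈ SB T, nrm n =
      nrm (∏ ρ ∈ (PD n).filter P, ρ) * pN ((PD n).filter (fun ρ => ¬ P ρ)) := by
    intro n hn
    conv_lhs => rw [(key n hn).2]
    rw [nrm_mul, nrm_prod ((PD n).filter (fun ρ => ¬ P ρ)), pN]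
  refine sum_le_inj (fun n => ((∏ ρ ∈ (PD n).filter P, ρ), (PD n).filter (fun ρ => ¬ P ρ)))
    ?_ ?_ ?_ ?_
  · intro n hn
    have k1 := key n hn
    have k2 := keyN n hn
    have hn' := mem_SB.1 hn
    have hP : ∀ ρ ∈ (PD n).filter P, Pq ρ := fun ρ hρ => k1.1 ρ (mem_filter.1 hρ).1
    have hN : ∀ ρ ∈ (PD n).filter (fun ρ => ¬ P ρ), Pq ρ := fun ρ hρ => k1.1 ρ (mem_filter.1 hρ).1
    rw [mem_product, mem_SB, mem_powerset]
    refine ⟨⟨?_, (PS_prod hP).1⟩, ?_⟩
    · have h2 := pN_pos hN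
      calc nrm (∏ ρ ∈ (PD n).filter P, ρ)
          ≤ nrm (∏ ρ ∈ (PD n).filter P, ρ) * pN ((PD n).filter (fun ρ => ¬ P ρ)) :=
            Nat.le_mul_of_pos_right _ h2
        _ = nrm n := k2.symm
        _ ≤ T := hn'.1
    · intro ρ hρ
      rw [mem_QB]
      have h2 := (mem_PD hn'.2.ne).1 (mem_filter.1 hρ).1
      refine ⟨le_trans ?_ hn'.1, h2.1⟩
      obtain ⟨u, hu⟩ := h2.2
      have hn0 := hn'.2.ne
      rw [hu, nrm_mul]
      apply Nat.le_mul_of_pos_right
      apply nrm_pos'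
      rintro rfl
      rw [mul_zero] at hu
      exact hn0 hu
  · intro n hn m hm h
    simp only [Prod.mk.injEq] at h
    rw [(key n hn).2, (key m hm).2, h.1, h.2]
  · intro n hn
    have k1 := key n hn
    have k2 := keyN n hn
    have hP : ∀ ρ ∈ (PD n).filter P, Pq ρ := fun ρ hρ => k1.1 ρ (mem_filter.1 hρ).1
    have e1 : mf (fun π => if P π then 1 else a) n =
        a ^ ((PD n).filter (fun ρ => ¬ P ρ)).card := by
      unfold mf
      rw [← prod_filter_mul_prod_filter_not (PD n) P]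
      rw [prod_congr rfl (g := fun _ => (1 : ℝ)) (fun x hx => if_pos (mem_filter.1 hx).2),
        prod_const_one, one_mul,
        prod_congr rfl (g := fun _ => a) (fun x hx => if_neg (mem_filter.1 hx).2), prod_const]
    have e2 : mf g1 (∏ ρ ∈ (PD n).filter P, ρ) = 1 := by
      unfold mf
      rw [(PS_prod hP).2]
      exact prod_eq_one fun x hx => h1 x (mem_filter.1 hx).2
    simp only
    rw [e1, e2, k2]
    push_cast
    apply le_of_eq
    rw [div_mul_eq_div_div]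
    ring
  · rintro ⟨n, S⟩ hx
    simp only
    have h2 : 0 ≤ mf g1 n / (nrm n : ℝ) := div_nonneg (mf_nonneg h0 n) (Nat.cast_nonneg _)
    positivity

theorem t_HALS : Pool.Agent.D0H69.JT.S_HALS := by
  classical
  intro τ hτ
  obtain ⟨C, hC0, hC⟩ := M_le
  refine ⟨5544 * Real.exp (C / 24), ?_, ?_⟩
  · have : (1 : ℝ) ≤ Real.exp (C / 24) := Real.one_le_exp (by positivity)
    linarith
  intro A B t hA hB hAB T
  have hCe : (1 : ℝ) ≤ Real.exp (C / 24) := Real.one_le_exp (by positivity)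
  have hN1 : 1 ≤ nrm A * nrm B := Nat.mul_pos (nrm_pos' hA.ne) (nrm_pos' hB.ne)
  have hl := one_le_lg (nrm A * nrm B)
  have hL1 : (1 : ℝ) ≤ (lg (nrm A * nrm B)) ^ (1 / 3 : ℝ) := Real.one_le_rpow hl (by norm_num)
  have hg0 : ∀ π : Ei, (0 : ℝ) ≤ (if xab A B π * ez (t * τ π) = 1 then 1 else 1 / 24) := by
    intro π
    split_ifs <;> norm_num
  have hg1 : ∀ π : Ei, (if xab A B π * ez (t * τ π) = 1 then 1 else 1 / 24 : ℝ) ≤ 1 := by
    intro π
    split_ifs <;> norm_num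
  rcases Nat.eq_zero_or_pos T with h0 | hT
  · rw [SB_empty h0, sum_empty]
    have h2 := lg_pos T
    have h3 := lg_pos (nrm A * nrm B)
    positivity
  have hlT := lg_pos T
  have hlT1 := one_le_lg T
  have T0 : (0 : ℝ) < T := by exact_mod_cast hT
  rcases Nat.lt_or_ge T 3 with hT3 | hT3
  · have h2 : ∑ n ∈ SB T, mf (fun π => if xab A B π * ez (t * τ π) = 1 then 1 else 1 / 24) n ≤
        16 * T := by
      refine (sum_le_sum fun n _ => mf_le_one hg0 hg1 n).trans ?_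
      rw [sum_const, nsmul_eq_mul, mul_one]
      exact card_SB_le hT
    have h3 : (1 / 2 : ℝ) ≤ (lg T) ^ (-(1 / 4) : ℝ) := by
      have h4 : lg T ≤ 2 := by
        unfold lg
        have h5 : Nat.log 2 T ≤ 1 :=
          (Nat.log_mono_right (by omega : T ≤ 2)).trans (by norm_num)
        have h6 : (Nat.log 2 T : ℝ) ≤ 1 := by exact_mod_cast h5
        linarith
      calc (1 / 2 : ℝ) = (2 : ℝ) ^ (-1 : ℝ) := by rw [Real.rpow_neg_one]; norm_num
        _ ≤ (2 : ℝ) ^ (-(1 / 4) : ℝ) :=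
            Real.rpow_le_rpow_of_exponent_le (by norm_num) (by norm_num)
        _ ≤ (lg T) ^ (-(1 / 4) : ℝ) := Real.rpow_le_rpow_of_nonpos hlT h4 (by norm_num)
    calc _ ≤ 16 * (T : ℝ) := h2
      _ ≤ (5544 * 1) * 1 * (T * (1 / 2)) := by nlinarith
      _ ≤ _ := by gcongr
  -- the main case
  have hch := ps_ch hτ hA hB t
  have hv := fun π => hch.val π
  have hAA : ∑ n ∈ PB (T ^ 3), mf (fun π => 3 * ((1 + 2 * (ps τ A B t π).re) / 3)) n / nrm n ≤
      (18399744 * lg (nrm A * nrm B)) * lg T ^ 2 := by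
    have e1 : (fun π : Ei => 3 * ((1 + 2 * (ps τ A B t π).re) / 3)) =
        fun π => 1 + 2 * (ps τ A B t π).re := by
      funext π; ring
    rw [e1]
    have hlog : ∀ Y : ℕ, ‖∑ d ∈ PB Y, ps τ A B t d / nrm d‖ ≤ 1992 * lg (nrm A * nrm B) := by
      intro Y
      have := ch_log hch hN1 (c := 972) (by norm_num) (fun v hv => ps_le hτ hA hB hAB hv) Y
      refine this.trans (le_of_eq ?_)
      norm_num
    refine (conv_bound hch hlog (T ^ 3)).trans ?_
    have e5 := lg_cube T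
    have e6 := lg_pos (T ^ 3)
    have e7 : (32 * lg (T ^ 3)) ^ 2 ≤ (96 * lg T) ^ 2 := by
      apply pow_le_pow_left₀ (by positivity)
      linarith
    calc (32 * lg (T ^ 3)) ^ 2 * (1992 * lg (nrm A * nrm B)) ≤
          (96 * lg T) ^ 2 * (1992 * lg (nrm A * nrm B)) := by
          apply mul_le_mul_of_nonneg_right e7 (by positivity)
      _ = 18358272 * (lg (nrm A * nrm B) * lg T ^ 2) := by ring
      _ ≤ 18399744 * (lg (nrm A * nrm B) * lg T ^ 2) := by
          have : 0 ≤ lg (nrm A * nrm B) * lg T ^ 2 := by positivity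
          linarith
      _ = _ := by ring
  have hk0 : ∀ π, 0 ≤ (1 + 2 * (ps τ A B t π).re) / 3 :=
    fun π => by have := re_nonneg (hv π); linarith
  have hk1 : ∀ π, (1 + 2 * (ps τ A B t π).re) / 3 ≤ 1 :=
    fun π => by have := re_le (hv π); linarith
  have h3 := (hall3 hk0 hk1 T).trans hAA
  set S1 := ∑ n ∈ SB T, mf (fun π => (1 + 2 * (ps τ A B t π).re) / 3) n / nrm n with hS1
  have hS10 : 0 ≤ S1 := sum_nonneg fun n _ => div_nonneg (mf_nonneg hk0 n) (Nat.cast_nonneg _)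
  have A0 : 0 < 18399744 * lg (nrm A * nrm B) := by linarith
  have h4 : S1 ≤ 264 * (lg (nrm A * nrm B)) ^ (1 / 3 : ℝ) * (lg T) ^ (2 / 3 : ℝ) := by
    have h5 : S1 ≤ (18399744 * lg (nrm A * nrm B)) ^ (1 / 3 : ℝ) * (lg T) ^ (2 / 3 : ℝ) := by
      apply le_of_pow_le_pow_left₀ (n := 3) (by norm_num) (by positivity)
      refine h3.trans (le_of_eq ?_)
      rw [mul_pow, ← Real.rpow_natCast, ← Real.rpow_natCast, ← Real.rpow_natCast,
        ← Real.rpow_mul A0.le, ← Real.rpow_mul hlT.le]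
      norm_num
    have e : (18399744 * lg (nrm A * nrm B)) ^ (1 / 3 : ℝ) =
        264 * (lg (nrm A * nrm B)) ^ (1 / 3 : ℝ) := by
      rw [Real.mul_rpow (by norm_num) (by linarith)]
      congr 1
      rw [show (18399744 : ℝ) = 264 ^ (3 : ℝ) by norm_num, ← Real.rpow_mul (by norm_num)]
      norm_num
    rwa [e] at h5
  -- the product
  have hmf : ∀ n ∈ SB T, mf (fun π => if xab A B π * ez (t * τ π) = 1 then (1 : ℝ) else 1 / 24) n =
      mf (fun π => if ps τ A B t π = 1 then (1 : ℝ) else 1 / 24) n := by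
    intro n hn
    unfold mf
    refine prod_congr rfl fun π hπ => ?_
    simp only
    rw [ps_prm (pq_prm ((mem_PD (mem_SB.1 hn).2.ne).1 hπ).1)]
  have h5 : ∑ n ∈ SB T, mf (fun π => if ps τ A B t π = 1 then (1 : ℝ) else 1 / 24) n / nrm n ≤
      S1 * (Real.exp (C / 24) * (lg T) ^ (1 / 12 : ℝ)) := by
    refine (split_sum (fun π => ps τ A B t π = 1) (fun π => (1 + 2 * (ps τ A B t π).re) / 3) hk0
      (by intro π hπ; simp only [hπ, Complex.one_re]; norm_num) (1 / 24) (by norm_num) T).trans ?_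
    apply mul_le_mul_of_nonneg_left _ hS10
    refine (small_sum (1 / 24) (by norm_num) T).trans ?_
    have h6 := hC T hT3
    have hT3' : (3 : ℝ) ≤ T := by exact_mod_cast hT3
    have hlog1 : 1 < Real.log T := by
      rw [Real.lt_log_iff_exp_lt T0]
      have := Real.exp_one_lt_d9
      linarith
    have h7 : Real.exp (1 / 24 * ∑ π ∈ QB T, (1 : ℝ) / nrm π) ≤
        Real.exp (C / 24 + Real.log (Real.log T) * (1 / 12)) := by
      apply Real.exp_le_exp.2
      linarith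
    refine h7.trans ?_
    rw [Real.exp_add]
    apply mul_le_mul_of_nonneg_left _ (Real.exp_pos _).le
    rw [← Real.rpow_def_of_pos (by linarith : (0 : ℝ) < Real.log T)]
    exact Real.rpow_le_rpow (by linarith) (log_le_lg hT) (by norm_num)
  have h6 := hall1 hg0 hg1 hT
  rw [sum_congr rfl (fun n hn => by rw [hmf n hn] :
    ∀ n ∈ SB T, mf (fun π => if xab A B π * ez (t * τ π) = 1 then (1 : ℝ) else 1 / 24) n /
      (nrm n : ℝ) = mf (fun π => if ps τ A B t π = 1 then (1 : ℝ) else 1 / 24) n / (nrm n : ℝ))]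
    at h6
  set S := ∑ n ∈ SB T, mf (fun π => if xab A B π * ez (t * τ π) = 1 then (1 : ℝ) else 1 / 24) n
    with hS
  have hS0 : 0 ≤ S := sum_nonneg fun n _ => mf_nonneg hg0 n
  have h7 := lg_le_log (T := T) (by omega)
  have h8 : (lg T) ^ (-(1 / 4) : ℝ) * lg T = (lg T) ^ (2 / 3 : ℝ) * (lg T) ^ (1 / 12 : ℝ) := by
    have := Real.rpow_add hlT (-(1 / 4)) 1
    rw [Real.rpow_one] at this
    rw [← this, ← Real.rpow_add hlT]
    norm_num
  have h9 : S * lg T ≤ 21 * T * ((264 * (lg (nrm A * nrm B)) ^ (1 / 3 : ℝ) *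
      (lg T) ^ (2 / 3 : ℝ)) * (Real.exp (C / 24) * (lg T) ^ (1 / 12 : ℝ))) := by
    calc S * lg T ≤ S * (3 * Real.log T) := mul_le_mul_of_nonneg_left h7 hS0
      _ = 3 * (S * Real.log T) := by ring
      _ ≤ 3 * (7 * T * (S1 * (Real.exp (C / 24) * (lg T) ^ (1 / 12 : ℝ)))) := by
          apply mul_le_mul_of_nonneg_left _ (by norm_num)
          exact h6.trans (mul_le_mul_of_nonneg_left h5 (by positivity))
      _ ≤ 3 * (7 * T * ((264 * (lg (nrm A * nrm B)) ^ (1 / 3 : ℝ) * (lg T) ^ (2 / 3 : ℝ)) *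
          (Real.exp (C / 24) * (lg T) ^ (1 / 12 : ℝ)))) := by
          gcongr
      _ = _ := by ring
  have h10 : S * lg T ≤ (5544 * Real.exp (C / 24) * (lg (nrm A * nrm B)) ^ (1 / 3 : ℝ) *
      (T * (lg T) ^ (-(1 / 4) : ℝ))) * lg T := by
    refine h9.trans (le_of_eq ?_)
    have : (5544 * Real.exp (C / 24) * (lg (nrm A * nrm B)) ^ (1 / 3 : ℝ) *
      (T * (lg T) ^ (-(1 / 4) : ℝ))) * lg T = 5544 * Real.exp (C / 24) *
        (lg (nrm A * nrm B)) ^ (1 / 3 : ℝ) * T * ((lg T) ^ (-(1 / 4) : ℝ) * lg T) := by ring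
    rw [this, h8]
    ring
  exact le_of_mul_le_mul_right h10 hlT

end Pool.Agent.D0H87.JT
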